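import Mathlib
import Pool.Agent.H68.L.R_seed8.W192.CM.Parts2

/-!
# Project HK (owner helper192): Hecke characters of all imaginary quadratic fields

`R` is the ring of integers of an imaginary quadratic field `K` (any class number), `f` an ideal of
`R`, `ψ` a primitive Hecke character of `K` of conductor `f` and infinity type `(2m - 1, 0)`, a
function on the ideals of `R`; `χ` a primitive ray class character of conductor `c` prime to `f` of
order `≥ N(c) ^ (2/3 + δ)`.  Aim: some Galois conjugate `χ ^ a` has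
`|L(ψ χ ^ a, m)| ≥ N(c) ^ (-δ)`.
-/

set_option autoImplicit false

open Complex Filter Topology Set

namespace Pool.Agent.W192.HK

open Pool.Agent.W192.CY (VW Vk)
open Pool.Agent.W192.CM (ez nu)

/-- `R = ℤ + ℤ ω` is the ring of integers of an imaginary quadratic field -/
structure QR (R : Subring ℂ) (ω : ℂ) : Prop where
  im : 0 < ω.im
  mem : ∀ z : ℂ, z ∈ R ↔ ∃ x y : ℤ, z = x + y * ω
  ded : IsDedekindDomain R

/-- the norm of an ideal (`0` for the zero ideal) -/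
noncomputable def nm {R : Subring ℂ} (I : Ideal R) : ℝ := (Nat.card (R ⧸ I) : ℝ)

/-- the principal ideal of `α` -/
abbrev sp {R : Subring ℂ} (α : R) : Ideal R := Ideal.span {α}

/-- primitive Hecke character of conductor `q` and infinity type `(n, 0)` -/
structure HC {R : Subring ℂ} (n : ℕ) (q : Ideal R) (ψ : Ideal R → ℂ) : Prop where
  ne : q ≠ ⊥
  mul : ∀ I J : Ideal R, ψ (I * J) = ψ I * ψ J
  zero : ∀ I : Ideal R, ψ I = 0 ↔ (I = ⊥ ∨ ¬ IsCoprime I q)
  princ : ∀ α : R, α ≠ 0 → α - 1 ∈ q → ψ (sp α) = (α : ℂ) ^ n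
  prim : ∀ q' : Ideal R, q < q' → ∃ α : R, α ≠ 0 ∧ α - 1 ∈ q' ∧ IsCoprime (sp α) q ∧
    ψ (sp α) ≠ (α : ℂ) ^ n

/-- ray class character modulo `c` (not necessarily primitive) -/
structure RC {R : Subring ℂ} (c : Ideal R) (χ : Ideal R → ℂ) : Prop where
  ne : c ≠ ⊥
  mul : ∀ I J : Ideal R, χ (I * J) = χ I * χ J
  zero : ∀ I : Ideal R, χ I = 0 ↔ (I = ⊥ ∨ ¬ IsCoprime I c)
  princ : ∀ α : R, α ≠ 0 → α - 1 ∈ c → χ (sp α) = 1

/-- `d` is the order of `χ` -/
structure Od {R : Subring ℂ} (χ : Ideal R → ℂ) (d : ℕ) : Prop where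
  pos : 0 < d
  pow : ∀ I : Ideal R, χ I ≠ 0 → χ I ^ d = 1
  least : ∀ n : ℕ, 0 < n → (∀ I : Ideal R, χ I ≠ 0 → χ I ^ n = 1) → d ≤ n

open Classical in
/-- the power `χ ^ a` -/
noncomputable def pw {R : Subring ℂ} (χ : Ideal R → ℂ) (a : ℕ) : Ideal R → ℂ :=
  fun I => if χ I = 0 then 0 else χ I ^ a

/-- the finite part `θ(α) = ψ((α)) / α ^ n` -/
noncomputable def fp {R : Subring ℂ} (n : ℕ) (ψ : Ideal R → ℂ) (α : R) : ℂ :=
  ψ (sp α) / (α : ℂ) ^ n

/-- `T` is a system of representatives of `R / q` contained in `b` -/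
structure Rp {R : Subring ℂ} (q b : Ideal R) (T : Finset R) : Prop where
  mem : ∀ x ∈ T, x ∈ b
  uni : ∀ α : R, ∃! x, x ∈ T ∧ α - x ∈ q

/-- `s` is a system of representatives of the ideal classes: every nonzero ideal `I` has exactly one
`b ∈ s` with `I b` principal -/
structure Cs {R : Subring ℂ} (s : Finset (Ideal R)) : Prop where
  ne : ∀ b ∈ s, b ≠ ⊥
  uni : ∀ I : Ideal R, I ≠ ⊥ → ∃! b, b ∈ s ∧ ∃ α : R, I * b = sp α

/-- the data used for the functional equation of conductor `q`: class representatives `b ∈ s` prime to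
`q`, an ideal `hh` divisible by all of them, prime to `q`, with `q hh = (μ)`, and representatives `T`
of `R / q` in `hh` -/
structure Sys {R : Subring ℂ} (q : Ideal R) (s : Finset (Ideal R)) (hh : Ideal R) (μ : R)
    (T : Finset R) : Prop where
  cs : Cs s
  cp : ∀ b ∈ s, IsCoprime b q
  dvd : ∀ b ∈ s, b ∣ hh
  ne : hh ≠ ⊥
  cop : IsCoprime hh q
  prn : q * hh = sp μ
  rp : Rp q hh T

/-- the Gauss sum of `ψ` -/
noncomputable def gT {R : Subring ℂ} (ω : ℂ) (n : ℕ) (ψ : Ideal R → ℂ) (μ : R) (T : Finset R) : ℂ :=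
  ∑ x ∈ T, fp n ψ x * ez ω ((x : ℂ) / (μ : ℂ))

/-- the unimodular constant of the functional equation, weight `2 m - 1` -/
noncomputable def Wc {R : Subring ℂ} (ω : ℂ) (m : ℕ) (q hh : Ideal R) (μ : R) (T : Finset R)
    (ψ : Ideal R → ℂ) : ℂ :=
  gT ω (2 * m - 1) ψ μ T * (μ : ℂ) ^ (2 * m - 1) / ((nm q : ℂ) ^ m * ψ hh)

open Classical in
/-- the ideal `J` with `J b = (α)` (if there is one) -/
noncomputable def quo {R : Subring ℂ} (b : Ideal R) (α : R) : Ideal R :=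
  if h : ∃ J : Ideal R, J * b = sp α then Classical.choose h else ⊥

/-- the exponents `a` modulo `d` prime to `d`, `a ≡ 1 mod M` -/
def Ea (d M : ℕ) : Finset ℕ := (Finset.range d).filter (fun a => Nat.Coprime a d ∧ a % M = 1 % M)

/-- number of ideals `I` with `χ(I) ^ k = 1` of norm `≤ y` -/
noncomputable def cntI {R : Subring ℂ} (χ : Ideal R → ℂ) (k : ℕ) (y : ℝ) : ℕ :=
  Set.ncard {I : Ideal R | nm I ≤ y ∧ χ I ≠ 0 ∧ χ I ^ k = 1}

open Classical in
/-- the tail sum over the ideals with `χ(I) ^ k = 1` and `N I > B` -/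
noncomputable def tailI {R : Subring ℂ} (χ : Ideal R → ℂ) (k : ℕ) (B X η : ℝ) : ℝ :=
  ∑' I : Ideal R, if B < nm I ∧ χ I ≠ 0 ∧ χ I ^ k = 1
    then (nm I) ^ (-1 / 2 + η) * Real.exp (-(nm I / X)) else 0

/-- Möbius function on ideals -/
structure Mu (R : Subring ℂ) (mu : Ideal R → ℝ) : Prop where
  le : ∀ I : Ideal R, |mu I| ≤ 1
  top : mu ⊤ = 1
  sum : ∀ I : Ideal R, I ≠ ⊥ → I ≠ ⊤ → ∑ᶠ J ∈ {J : Ideal R | J ∣ I}, mu J = 0

/-- completely multiplicative, `|g(I)| ≤ N(I)^(1/2)` -/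
structure Gd (R : Subring ℂ) (g : Ideal R → ℂ) : Prop where
  zero : g ⊥ = 0
  one : g ⊤ = 1
  mul : ∀ I J : Ideal R, g (I * J) = g I * g J
  le : ∀ I : Ideal R, ‖g I‖ ≤ Real.sqrt (nm I)

open Classical in
/-- the mollifier of length `B` -/
noncomputable def mol {R : Subring ℂ} (mu : Ideal R → ℝ) (g : Ideal R → ℂ) (B : ℝ)
    (χ : Ideal R → ℂ) : ℂ :=
  ∑' I : Ideal R, if nm I ≤ B then χ I * ((mu I : ℂ) * g I) / (nm I : ℂ) else 0

/-- the smoothed sum of length `X` -/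
noncomputable def smo {R : Subring ℂ} (V : ℝ → ℝ) (g : Ideal R → ℂ) (X : ℝ) (χ : Ideal R → ℂ) : ℂ :=
  ∑' I : Ideal R, χ I * g I / (nm I : ℂ) * (V (nm I / X) : ℂ)

end Pool.Agent.W192.HK
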